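import Pool.Agent.X81.RTree

set_option autoImplicit false

namespace Pool.Agent.Results.MP_4edf50_co.UnboundedOnTrees

open Finset Pool.Agent.X81.RTree

section defs

variable {V : Type} [Fintype V]

/-- The eccentricity of `v`. -/
noncomputable def ecc (G : SimpleGraph V) (v : V) : ℕ := Finset.univ.sup (fun u => G.dist v u)

/-- The diameter. -/
noncomputable def diam (G : SimpleGraph V) : ℕ := Finset.univ.sup (fun v => ecc G v)

/-- Broadcasts: `f : V → {0, …, diam G}` with `f v ≤ e(v)`. -/
def IsBroadcast (G : SimpleGraph V) (f : V → ℕ) : Prop :=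
  (∀ v, f v ≤ diam G) ∧ ∀ v, f v ≤ ecc G v

/-- The weight of a broadcast. -/
def weight (f : V → ℕ) : ℕ := ∑ v, f v

/-- `u` hears `f` from `v`. -/
def Hears (G : SimpleGraph V) (f : V → ℕ) (u v : V) : Prop := 0 < f v ∧ G.dist u v ≤ f v

/-- Every vertex hears `f`. -/
def Dominating (G : SimpleGraph V) (f : V → ℕ) : Prop := ∀ u, ∃ v, Hears G f u v

/-- Minimal dominating broadcasts. -/
def MinimalDominating (G : SimpleGraph V) (f : V → ℕ) : Prop :=
  IsBroadcast G f ∧ Dominating G f ∧
    ∀ g : V → ℕ, IsBroadcast G g → (∀ v, g v ≤ f v) → (∃ v, g v < f v) → ¬ Dominating G g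

/-- Boundary independent broadcasts: a vertex that hears `f` from two different broadcasting
vertices is on the boundary of both. -/
def BnIndependent (G : SimpleGraph V) (f : V → ℕ) : Prop :=
  IsBroadcast G f ∧ ∀ u v w, u ≠ v → Hears G f w u → Hears G f w v →
    G.dist w u = f u ∧ G.dist w v = f v

/-- The upper broadcast domination number. -/
noncomputable def upperBroadcast (G : SimpleGraph V) : ℕ :=
  sSup {s | ∃ f, MinimalDominating G f ∧ weight f = s}

/-- The boundary independence number. -/
noncomputable def alphaBn (G : SimpleGraph V) : ℕ :=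
  sSup {s | ∃ f, BnIndependent G f ∧ weight f = s}

end defs

/-! ### The branch -/

/-- parents inside a branch (`0` is the top vertex of the branch) -/
def pt : Fin 11 → Fin 11 := ![0, 0, 1, 2, 3, 3, 5, 6, 7, 5, 9]

/-- distance of the vertices of a branch to the centre -/
def dep : Fin 11 → ℕ := ![1, 2, 3, 4, 5, 5, 6, 7, 8, 6, 7]

/-- distances inside a branch -/
def tab : Fin 11 → Fin 11 → ℕ :=
  ![![0, 1, 2, 3, 4, 4, 5, 6, 7, 5, 6],
    ![1, 0, 1, 2, 3, 3, 4, 5, 6, 4, 5],
    ![2, 1, 0, 1, 2, 2, 3, 4, 5, 3, 4],
    ![3, 2, 1, 0, 1, 1, 2, 3, 4, 2, 3],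
    ![4, 3, 2, 1, 0, 2, 3, 4, 5, 3, 4],
    ![4, 3, 2, 1, 2, 0, 1, 2, 3, 1, 2],
    ![5, 4, 3, 2, 3, 1, 0, 1, 2, 2, 3],
    ![6, 5, 4, 3, 4, 2, 1, 0, 1, 3, 4],
    ![7, 6, 5, 4, 5, 3, 2, 1, 0, 4, 5],
    ![5, 4, 3, 2, 3, 1, 2, 3, 4, 0, 1],
    ![6, 5, 4, 3, 4, 2, 3, 4, 5, 1, 0]]

theorem dep_pt : ∀ a : Fin 11, a ≠ 0 → dep a = dep (pt a) + 1 := by decide
theorem dep_zero : dep 0 = 1 := by decide
theorem dep_pos : ∀ a : Fin 11, 1 ≤ dep a := by decide
theorem dep_le : ∀ a : Fin 11, dep a ≤ 8 := by decide
theorem tab_self : ∀ a : Fin 11, tab a a = 0 := by decide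
theorem tab_le : ∀ a b : Fin 11, tab a b ≤ 7 := by decide
theorem tab_L : ∀ a b : Fin 11, b ≠ 0 → tab a b ≤ tab a (pt b) + 1 ∧ tab a (pt b) ≤ tab a b + 1 := by
  decide
theorem tab_L0 : ∀ a : Fin 11, tab a 0 ≤ dep a + 1 ∧ dep a ≤ tab a 0 + 1 := by decide
theorem tab_S : ∀ a b : Fin 11, a ≠ b →
    (b ≠ 0 ∧ tab a (pt b) + 1 = tab a b) ∨ (a ≠ 0 ∧ tab (pt a) b + 1 = tab a b) := by decide

/-- exhaustive search over the boundary independent assignments of a branch -/
def chk : List (Fin 11) → List (Fin 11 × ℕ) → ℕ → Bool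
  | [], _, s => decide (s ≤ 8)
  | v :: vs, acc, s => chk vs acc s && (List.range (dep v)).all (fun r =>
      !(acc.all (fun p => decide (p.2 + (r + 1) ≤ tab p.1 v))) || chk vs ((v, r + 1) :: acc) (s + (r + 1)))

theorem chk_sound (g : Fin 11 → ℕ) (hg : ∀ a, g a ≤ dep a)
    (hp : ∀ a b, a ≠ b → 0 < g a → 0 < g b → g a + g b ≤ tab a b) :
    ∀ (vs : List (Fin 11)) (acc : List (Fin 11 × ℕ)) (s : ℕ), chk vs acc s = true →
      (∀ q ∈ acc, q.2 = g q.1 ∧ 0 < q.2 ∧ q.1 ∉ vs) → vs.Nodup →
      s + (vs.map g).sum ≤ 8 := by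
  intro vs
  induction vs with
  | nil =>
    intro acc s h _ _
    simp only [chk, decide_eq_true_eq] at h
    simpa using h
  | cons v vs ih =>
    intro acc s h hacc hnd
    rw [List.nodup_cons] at hnd
    simp only [chk, Bool.and_eq_true, List.all_eq_true, List.mem_range, Bool.or_eq_true,
      Bool.not_eq_true'] at h
    obtain ⟨h1, h2⟩ := h
    rw [List.map_cons, List.sum_cons]
    rcases Nat.eq_zero_or_pos (g v) with h0 | h0
    · rw [h0]
      have := ih acc s h1 (fun q hq => by
        obtain ⟨a, b, c⟩ := hacc q hq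
        exact ⟨a, b, fun hc => c (List.mem_cons_of_mem _ hc)⟩) hnd.2
      omega
    · have hr := h2 (g v - 1) (by have := hg v; omega)
      have e : g v - 1 + 1 = g v := by omega
      rw [e] at hr
      rcases hr with hr | hr
      · exfalso
        have : (acc.all fun p => decide (p.2 + g v ≤ tab p.1 v)) = true := by
          rw [List.all_eq_true]
          intro q hq
          obtain ⟨a, b, c⟩ := hacc q hq
          rw [decide_eq_true_eq, a]
          apply hp
          · rintro rfl
            exact c List.mem_cons_self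
          · rw [← a]; exact b
          · exact h0
        rw [this] at hr
        exact Bool.noConfusion hr
      · have := ih ((v, g v) :: acc) (s + g v) hr (by
          intro q hq
          rcases List.mem_cons.1 hq with rfl | hq
          · exact ⟨rfl, h0, hnd.1⟩
          · obtain ⟨a, b, c⟩ := hacc q hq
            exact ⟨a, b, fun hc => c (List.mem_cons_of_mem _ hc)⟩) hnd.2
        omega

set_option maxRecDepth 100000 in
theorem chk_true : chk [0, 1, 2, 3, 4, 5, 6, 7, 8, 9, 10] [] 0 = true := by decide +kernel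

theorem branch_bound (g : Fin 11 → ℕ) (hg : ∀ a, g a ≤ dep a)
    (hp : ∀ a b, a ≠ b → 0 < g a → 0 < g b → g a + g b ≤ tab a b) : ∑ a, g a ≤ 8 := by
  have := chk_sound g hg hp [0, 1, 2, 3, 4, 5, 6, 7, 8, 9, 10] [] 0 chk_true (by simp) (by decide)
  have e : ∑ a, g a = ([0, 1, 2, 3, 4, 5, 6, 7, 8, 9, 10].map g).sum := by
    simp [Fin.sum_univ_succ]
  rw [e]
  omega

/-! ### The trees -/

/-- the vertices: a centre, sixteen leaves at the centre and `k` branches -/
abbrev Vx (k : ℕ) : Type := Option (Fin 16 ⊕ (Fin k × Fin 11))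

variable {k : ℕ}

/-- the parent function -/
def par : Vx k → Vx k
  | none => none
  | some (Sum.inl _) => none
  | some (Sum.inr (i, a)) => if a = 0 then none else some (Sum.inr (i, pt a))

/-- the depth -/
def dp : Vx k → ℕ
  | none => 0
  | some (Sum.inl _) => 1
  | some (Sum.inr (_, a)) => dep a

/-- the distance -/
def D : Vx k → Vx k → ℕ
  | none, y => dp y
  | x, none => dp x
  | some (Sum.inl i), some (Sum.inl j) => if i = j then 0 else 2
  | some (Sum.inl _), some (Sum.inr (_, a)) => 1 + dep a
  | some (Sum.inr (_, a)), some (Sum.inl _) => dep a + 1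
  | some (Sum.inr (i, a)), some (Sum.inr (j, b)) => if i = j then tab a b else dep a + dep b

theorem dp_par (v : Vx k) (hv : v ≠ none) : dp v = dp (par v) + 1 := by
  rcases v with _ | (j | ⟨i, a⟩)
  · exact absurd rfl hv
  · rfl
  · by_cases ha : a = 0
    · subst ha
      simp [par, dp, dep_zero]
    · simp only [par, if_neg ha, dp]
      exact dep_pt a ha

/-- the tree -/
def T (k : ℕ) : SimpleGraph (Vx k) := tg none par dp dp_par

theorem T_isTree (k : ℕ) : (T k).IsTree :=
  isTree (r := none) (p := par) (δ := dp) rfl dp_par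

theorem D_self (x : Vx k) : D x x = 0 := by
  rcases x with _ | (j | ⟨i, a⟩)
  · rfl
  · simp [D]
  · simp [D, tab_self]

theorem D_none (x : Vx k) : D x none = dp x := by
  rcases x with _ | (j | ⟨i, a⟩) <;> rfl

theorem D_L (x y : Vx k) (hy : y ≠ none) : D x y ≤ D x (par y) + 1 ∧ D x (par y) ≤ D x y + 1 := by
  rcases y with _ | (j | ⟨i, a⟩)
  · exact absurd rfl hy
  · rcases x with _ | (j' | ⟨i', a'⟩)
    · simp [D, par, dp]
    · simp only [D, par, dp]
      split_ifs <;> simp
    · simp only [D, par, dp]
      omega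
  · by_cases ha : a = 0
    · subst ha
      rcases x with _ | (j' | ⟨i', a'⟩)
      · simp [D, par, dp, dep_zero]
      · simp [D, par, dp, dep_zero]
      · simp only [D, par, if_true, dp]
        split_ifs
        · exact tab_L0 a'
        · rw [dep_zero]
          omega
    · have h1 := dep_pt a ha
      rcases x with _ | (j' | ⟨i', a'⟩)
      · simp only [D, par, if_neg ha, dp]
        omega
      · simp only [D, par, if_neg ha]
        omega
      · simp only [D, par, if_neg ha]
        split_ifs
        · exact tab_L a' a ha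
        · omega

theorem D_S (x y : Vx k) (hxy : x ≠ y) :
    (y ≠ none ∧ D x (par y) + 1 = D x y) ∨ (x ≠ none ∧ D (par x) y + 1 = D x y) := by
  rcases y with _ | (j | ⟨i, a⟩)
  · right
    refine ⟨hxy, ?_⟩
    rw [D_none, D_none, ← dp_par x hxy]
  · left
    refine ⟨by simp, ?_⟩
    rcases x with _ | (j' | ⟨i', a'⟩)
    · simp [D, par, dp]
    · have : j' ≠ j := fun h => hxy (by rw [h])
      simp [D, par, dp, this]
    · simp [D, par, dp]
  · rcases x with _ | (j' | ⟨i', a'⟩)
    · left
      refine ⟨by simp, ?_⟩
      show dp (par (some (Sum.inr (i, a)))) + 1 = dp (some (Sum.inr (i, a)))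
      exact (dp_par _ (by simp)).symm
    · right
      refine ⟨by simp, ?_⟩
      simp only [D, par, dp]
      omega
    · by_cases hi : i' = i
      · subst hi
        have hne : a' ≠ a := fun h => hxy (by rw [h])
        rcases tab_S a' a hne with ⟨h1, h2⟩ | ⟨h1, h2⟩
        · left
          refine ⟨by simp, ?_⟩
          simp only [par, if_neg h1, D, if_true]
          exact h2
        · right
          refine ⟨by simp, ?_⟩
          simp only [par, if_neg h1, D, if_true]
          exact h2
      · left
        refine ⟨by simp, ?_⟩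
        by_cases ha : a = 0
        · subst ha
          simp [par, D, hi, dp, dep_zero]
        · have h1 := dep_pt a ha
          simp only [par, if_neg ha, D, if_neg hi]
          omega

theorem T_dist (x y : Vx k) : (T k).dist x y = D x y :=
  dist_eq (r := none) (p := par) (δ := dp) rfl dp_par D D_self D_L D_S x y

theorem dp_le (x : Vx k) : dp x ≤ 8 := by
  rcases x with _ | (j | ⟨i, a⟩)
  · simp [dp]
  · simp [dp]
  · exact dep_le a

theorem D_le (x y : Vx k) : D x y ≤ dp x + dp y := by
  have h := (T_isTree k).connected.dist_triangle (u := x) (v := none) (w := y)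
  rw [SimpleGraph.dist_comm (u := none), T_dist, T_dist, T_dist, D_none, D_none] at h
  exact h

theorem ecc_le (x : Vx k) : ecc (T k) x ≤ 16 := by
  apply Finset.sup_le
  intro u _
  rw [T_dist]
  have h1 := D_le x u
  have h2 := dp_le x
  have h3 := dp_le u
  omega

/-- In a connected graph boundary independence separates the broadcasting vertices. -/
theorem bn_sep {V : Type} [Fintype V] {G : SimpleGraph V} (hG : G.Connected) {f : V → ℕ}
    (hf : BnIndependent G f) {u v : V} (huv : u ≠ v) (hu : 0 < f u) (hv : 0 < f v) :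
    f u + f v ≤ G.dist u v := by
  by_contra hcon
  rcases Nat.lt_or_ge (G.dist u v) (f u) with h | h
  · have := hf.2 u v v huv ⟨hu, by rw [SimpleGraph.dist_comm]; omega⟩
      ⟨hv, by rw [SimpleGraph.dist_self]; omega⟩
    rw [SimpleGraph.dist_self] at this
    omega
  · obtain ⟨x, hx1, hx2⟩ := exists_between hG u v (f u) h
    have := hf.2 u v x huv ⟨hu, by rw [SimpleGraph.dist_comm]; omega⟩ ⟨hv, by omega⟩
    omega

theorem weight_eq (f : Vx k → ℕ) : weight f = f none + (∑ j, f (some (Sum.inl j)) +
    ∑ i, ∑ a, f (some (Sum.inr (i, a)))) := by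
  unfold weight
  rw [Fintype.sum_option, Fintype.sum_sum_type, Fintype.sum_prod_type]

theorem small_weight (f : Vx k → ℕ) (h1 : ∀ v, f v ≤ dp v)
    (h2 : ∀ u v, u ≠ v → 0 < f u → 0 < f v → f u + f v ≤ D u v) :
    weight f ≤ ∑ j, f (some (Sum.inl j)) + 8 * k := by
  rw [weight_eq]
  have e0 : f none = 0 := Nat.le_zero.1 (h1 none)
  have e1 : ∑ i : Fin k, ∑ a, f (some (Sum.inr (i, a))) ≤ ∑ i : Fin k, 8 := by
    apply Finset.sum_le_sum
    intro i _
    apply branch_bound (fun a => f (some (Sum.inr (i, a))))
    · intro a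
      exact h1 _
    · intro a b hab ha hb
      have := h2 (some (Sum.inr (i, a))) (some (Sum.inr (i, b))) (by simp [hab]) ha hb
      simpa [D] using this
  rw [Finset.sum_const, Finset.card_univ, Fintype.card_fin, smul_eq_mul] at e1
  omega

theorem alpha_le (k : ℕ) : alphaBn (T k) ≤ 8 * k + 16 := by
  apply csSup_le
  · exact ⟨_, fun _ => 0, ⟨⟨fun _ => Nat.zero_le _, fun _ => Nat.zero_le _⟩,
      fun u v w _ hu _ => absurd hu.1 (lt_irrefl 0)⟩, rfl⟩
  · rintro s ⟨f, hf, rfl⟩
    have hsep : ∀ u v, u ≠ v → 0 < f u → 0 < f v → f u + f v ≤ D u v := by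
      intro u v huv hu hv
      rw [← T_dist]
      exact bn_sep (T_isTree k).connected hf huv hu hv
    by_cases hA : ∀ v, f v ≤ dp v
    · have h1 := small_weight f hA hsep
      have h2 : ∑ j : Fin 16, f (some (Sum.inl j)) ≤ ∑ j : Fin 16, 1 :=
        Finset.sum_le_sum fun j _ => hA _
      simp only [Finset.sum_const, Finset.card_univ, Fintype.card_fin, smul_eq_mul] at h2
      omega
    · push Not at hA
      obtain ⟨v0, hv0⟩ := hA
      classical
      set g : Vx k → ℕ := Function.update f v0 0 with hg
      have hgv : ∀ v, v ≠ v0 → g v = f v := fun v hv => by rw [hg, Function.update_of_ne hv]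
      have hg0 : g v0 = 0 := by rw [hg, Function.update_self]
      have hb : ∀ v, g v = 0 ∨ g v + 1 ≤ dp v := by
        intro v
        by_cases hv : v = v0
        · left
          rw [hv, hg0]
        · rcases Nat.eq_zero_or_pos (f v) with h0 | h0
          · left
            rw [hgv v hv, h0]
          · right
            have h3 := hsep v v0 hv h0 (by omega)
            have h4 := D_le v v0
            rw [hgv v hv]
            omega
      have h1 := small_weight g (fun v => by rcases hb v with h | h <;> omega) (by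
        intro u v huv hu hv
        have hu' : u ≠ v0 := by
          rintro rfl
          rw [hg0] at hu
          exact lt_irrefl _ hu
        have hv' : v ≠ v0 := by
          rintro rfl
          rw [hg0] at hv
          exact lt_irrefl _ hv
        rw [hgv u hu', hgv v hv'] at *
        exact hsep u v huv hu hv)
      have h2 : ∑ j : Fin 16, g (some (Sum.inl j)) = 0 := by
        apply Finset.sum_eq_zero
        intro j _
        rcases hb (some (Sum.inl j)) with h | h
        · exact h
        · simp only [dp] at h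
          omega
      have h3 : weight f = f v0 + weight g := by
        unfold weight
        rw [hg, Finset.sum_update_of_mem (Finset.mem_univ v0), Nat.zero_add,
          ← Finset.add_sum_erase _ _ (Finset.mem_univ v0), Finset.sdiff_singleton_eq_erase]
      have h4 : f v0 ≤ 16 := (hf.1.2 v0).trans (ecc_le v0)
      omega

/-! ### A minimal dominating broadcast of large weight -/

/-- the values on a branch -/
def bv : Fin 11 → ℕ := ![0, 0, 0, 0, 4, 0, 0, 0, 0, 0, 5]

/-- the broadcast -/
def F : Vx k → ℕ
  | none => 0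
  | some (Sum.inl _) => 1
  | some (Sum.inr (_, a)) => bv a

theorem weight_F : weight (F : Vx k → ℕ) = 16 + 9 * k := by
  rw [weight_eq]
  have : ∑ a, bv a = 9 := by decide
  simp only [F, this, Finset.sum_const, Finset.card_univ, Fintype.card_fin, smul_eq_mul]
  omega

theorem le_ecc (x y : Vx k) : D x y ≤ ecc (T k) x := by
  rw [← T_dist]
  exact Finset.le_sup (f := fun u => (T k).dist x u) (Finset.mem_univ y)

theorem ecc_le_diam {V : Type} [Fintype V] (G : SimpleGraph V) (x : V) : ecc G x ≤ diam G :=
  Finset.le_sup (f := fun v => ecc G v) (Finset.mem_univ x)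

theorem bv_le : ∀ a : Fin 11, ∃ b : Fin 11, bv a ≤ tab a b := by decide

theorem F_broadcast : IsBroadcast (T k) (F : Vx k → ℕ) := by
  have h : ∀ v : Vx k, F v ≤ ecc (T k) v := by
    intro v
    rcases v with _ | (j | ⟨i, a⟩)
    · exact Nat.zero_le _
    · exact le_trans (by simp [F, D, dp]) (le_ecc (some (Sum.inl j)) none)
    · obtain ⟨b, hb⟩ := bv_le a
      refine le_trans ?_ (le_ecc (some (Sum.inr (i, a))) (some (Sum.inr (i, b))))
      simpa [F, D] using hb
  exact ⟨fun v => (h v).trans (ecc_le_diam _ v), h⟩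

theorem dom_tab : ∀ a : Fin 11, ∃ b : Fin 11, 0 < bv b ∧ tab a b ≤ bv b := by decide

theorem F_dom : Dominating (T k) (F : Vx k → ℕ) := by
  intro u
  rcases u with _ | (j | ⟨i, a⟩)
  · refine ⟨some (Sum.inl 0), by simp [F], ?_⟩
    rw [T_dist]
    simp [D, dp, F]
  · refine ⟨some (Sum.inl j), by simp [F], ?_⟩
    rw [T_dist]
    simp [D, F]
  · obtain ⟨b, hb1, hb2⟩ := dom_tab a
    refine ⟨some (Sum.inr (i, b)), hb1, ?_⟩
    rw [T_dist]
    simpa [D, F] using hb2

theorem priv_leaf : ∀ a : Fin 11, bv a < 1 + dep a := by decide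

theorem priv4 : ∀ a : Fin 11, a ≠ 4 → 0 < bv a → bv a < tab 0 a := by decide
theorem priv4' : ∀ a : Fin 11, 0 < bv a → bv a < dep 0 + dep a := by decide
theorem priv10 : ∀ a : Fin 11, a ≠ 10 → 0 < bv a → bv a < tab 8 a := by decide
theorem priv10' : ∀ a : Fin 11, 0 < bv a → bv a < dep 8 + dep a := by decide

theorem bv_zero : ∀ a : Fin 11, a ≠ 4 → a ≠ 10 → bv a = 0 := by decide

theorem F_min : MinimalDominating (T k) (F : Vx k → ℕ) := by
  refine ⟨F_broadcast, F_dom, ?_⟩
  rintro g - hg ⟨v, hv⟩ hdom
  rcases v with _ | (j | ⟨i, a⟩)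
  · simp [F] at hv
  · -- the leaf `j` is no longer dominated
    have hgj : g (some (Sum.inl j)) = 0 := by
      simp only [F] at hv
      omega
    obtain ⟨u, hu1, hu2⟩ := hdom (some (Sum.inl j))
    rw [T_dist] at hu2
    have hgu := hg u
    rcases u with _ | (j' | ⟨i', a'⟩)
    · simp only [F] at hgu
      omega
    · by_cases hj : j = j'
      · subst hj
        omega
      · simp only [D, if_neg hj, F] at hu2 hgu
        omega
    · simp only [D, F] at hu2 hgu
      have := priv_leaf a'
      omega
  · by_cases h4 : a = 4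
    · subst h4
      obtain ⟨u, hu1, hu2⟩ := hdom (some (Sum.inr (i, 0)))
      rw [T_dist] at hu2
      have hgu := hg u
      rcases u with _ | (j' | ⟨i', a'⟩)
      · simp only [F] at hgu
        omega
      · simp only [D, F] at hu2 hgu
        have := dep_pos 0
        omega
      · simp only [F] at hgu hv
        by_cases hi : i = i'
        · subst hi
          simp only [D, if_true] at hu2
          by_cases ha : a' = 4
          · subst ha
            have e1 : tab 0 4 = 4 := by decide
            have e2 : bv 4 = 4 := by decide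
            omega
          · have := priv4 a' ha (by omega)
            omega
        · simp only [D, if_neg hi] at hu2
          have := priv4' a' (by omega)
          omega
    · by_cases h10 : a = 10
      · subst h10
        obtain ⟨u, hu1, hu2⟩ := hdom (some (Sum.inr (i, 8)))
        rw [T_dist] at hu2
        have hgu := hg u
        rcases u with _ | (j' | ⟨i', a'⟩)
        · simp only [F] at hgu
          omega
        · simp only [D, F] at hu2 hgu
          have := dep_pos 8
          omega
        · simp only [F] at hgu hv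
          by_cases hi : i = i'
          · subst hi
            simp only [D, if_true] at hu2
            by_cases ha : a' = 10
            · subst ha
              have e1 : tab 8 10 = 5 := by decide
              have e2 : bv 10 = 5 := by decide
              omega
            · have := priv10 a' ha (by omega)
              omega
          · simp only [D, if_neg hi] at hu2
            have := priv10' a' (by omega)
            omega
      · simp only [F] at hv
        have := bv_zero a h4 h10
        omega

theorem upper_ge (k : ℕ) : 9 * k + 16 ≤ upperBroadcast (T k) := by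
  apply le_csSup
  · refine ⟨∑ v, ecc (T k) v, ?_⟩
    rintro s ⟨f, hf, rfl⟩
    exact Finset.sum_le_sum fun v _ => hf.1.2 v
  · exact ⟨F, F_min, by rw [weight_F]; omega⟩

/-- The difference `Γ_b - α_bn` is unbounded on trees. -/
theorem result : ∀ C : ℕ, ∃ (V : Type) (_ : Fintype V) (T : SimpleGraph V),
    T.IsTree ∧ alphaBn T + C < upperBroadcast T := by
  intro C
  refine ⟨Vx (C + 1), inferInstance, T (C + 1), T_isTree _, ?_⟩
  have h1 := alpha_le (C + 1)
  have h2 := upper_ge (C + 1)
  omega

end Pool.Agent.Results.MP_4edf50_co.UnboundedOnTrees
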